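import Mathlib

set_option autoImplicit false

namespace Pool.Agent.B595.NW

/-- On a finite acyclic graph every antisymmetric edge function is a coboundary. -/
theorem forest_potential {G : Type} [AddCommGroup G] {V : Type} [Finite V] (H : SimpleGraph V)
    (hH : H.IsAcyclic) (g : V → V → G) (hg : ∀ i j, H.Adj i j → g i j = - g j i) :
    ∃ n : V → G, ∀ i j, H.Adj i j → n i - n j = g i j := by
  classical
  have := Fintype.ofFinite V
  induction h : H.edgeFinset.card generalizing H with
  | zero =>
    refine ⟨fun _ => 0, fun i j hij => ?_⟩
    exfalso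
    have : s(i, j) ∈ H.edgeFinset := by simpa using hij
    rw [Finset.card_eq_zero.mp h] at this
    simp at this
  | succ m ih =>
    have hne : H.edgeFinset.Nonempty := by
      rw [← Finset.card_pos]; omega
    obtain ⟨e, he⟩ := hne
    induction e using Sym2.ind with
    | _ u v =>
    have huv : H.Adj u v := by simpa using he
    set H' := H.deleteEdges {s(u, v)} with hH'
    have hle : H' ≤ H := H.deleteEdges_le _
    have hac : H'.IsAcyclic := hH.anti hle
    have hcard : H'.edgeFinset.card = m := by
      have : H'.edgeFinset = H.edgeFinset.erase s(u, v) := by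
        ext e
        simp only [hH', SimpleGraph.mem_edgeFinset, SimpleGraph.edgeSet_deleteEdges, Finset.mem_erase,
          Set.mem_sdiff, Set.mem_singleton_iff]
        tauto
      rw [this, Finset.card_erase_of_mem he, h]; rfl
    obtain ⟨n, hn⟩ := ih H' hac (fun i j hij => hg i j (hle hij)) (by convert hcard)
    have hbr : H.IsBridge s(u, v) := (SimpleGraph.isAcyclic_iff_forall_edge_isBridge.mp hH) huv
    have hnr : ¬ H'.Reachable u v := SimpleGraph.isBridge_iff.mp hbr
    refine ⟨fun w => n w + if H'.Reachable u w then (g u v - (n u - n v)) else 0, fun i j hij => ?_⟩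
    by_cases hij' : H'.Adj i j
    · have hiff : H'.Reachable u i ↔ H'.Reachable u j :=
        ⟨fun h => h.trans hij'.reachable, fun h => h.trans hij'.reachable.symm⟩
      have := hn i j hij'
      simp only [hiff]
      rw [← this]; abel
    · have hs : s(i, j) = s(u, v) := by
        by_contra hcon
        exact hij' (by rw [hH', SimpleGraph.deleteEdges_adj]; exact ⟨hij, by simpa using hcon⟩)
      rw [Sym2.eq_iff] at hs
      rcases hs with ⟨rfl, rfl⟩ | ⟨rfl, rfl⟩
      · simp only [hnr, if_false, SimpleGraph.Reachable.refl, if_true]
        abel
      · simp only [hnr, if_false, SimpleGraph.Reachable.refl, if_true]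
        rw [hg i j hij]
        abel

end Pool.Agent.B595.NW
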