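import Mathlib
import Pool.Agent.B595.NW.Forest

set_option autoImplicit false

namespace Pool.Agent.B595.NW

open Topology Filter Set

/-- Arbitrarily fine finite open covers whose intersection graph has no cycle. -/
def ForestCov (Y : Type) [MetricSpace Y] : Prop :=
  ∀ ε : ℝ, 0 < ε → ∃ (n : ℕ) (V : Fin n → Set Y),
    (∀ i, IsOpen (V i)) ∧ (∀ i, Metric.diam (V i) < ε) ∧ (⋃ i, V i) = Set.univ ∧
    (SimpleGraph.fromRel (fun i j : Fin n => (V i ∩ V j).Nonempty)).IsAcyclic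

variable {Y : Type} [MetricSpace Y] {P G : Type} [AddCommGroup G]

/-- Near `w` (within `Z`) the difference of `k` and `k'` is constant. -/
def LocEq (Z : Set Y) (q : P → Y) (k k' : P → G) (w : Y) : Prop :=
  ∃ c : G, ∀ᶠ w' in 𝓝[Z] w, ∀ x, q x = w' → k x - k' x = c

theorem LocEq.trans {Z : Set Y} {q : P → Y} {k k' k'' : P → G} {w : Y}
    (h : LocEq Z q k k' w) (h' : LocEq Z q k' k'' w) : LocEq Z q k k'' w := by
  obtain ⟨c, hc⟩ := h
  obtain ⟨c', hc'⟩ := h'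
  refine ⟨c + c', ?_⟩
  filter_upwards [hc, hc'] with w' h1 h2 x hx
  rw [← h1 x hx, ← h2 x hx]; abel

theorem LocEq.symm {Z : Set Y} {q : P → Y} {k k' : P → G} {w : Y}
    (h : LocEq Z q k k' w) : LocEq Z q k' k w := by
  obtain ⟨c, hc⟩ := h
  refine ⟨-c, ?_⟩
  filter_upwards [hc] with w' h1 x hx
  rw [← h1 x hx]; abel

/-- Gluing of local functions over a compact set with forest covers. -/
theorem glue [CompactSpace Y] (hF : ForestCov Y) (Z : Set Y) (hZ : IsClosed Z) (q : P → Y)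
    (O : Y → Set Y) (hO : ∀ z ∈ Z, IsOpen (O z) ∧ z ∈ O z) (k : Y → P → G)
    (h : ∀ z1 ∈ Z, ∀ z2 ∈ Z, ∀ w ∈ Z, w ∈ O z1 → w ∈ O z2 → LocEq Z q (k z1) (k z2) w) :
    ∃ K : P → G, ∀ z ∈ Z, ∀ w ∈ Z, w ∈ O z → LocEq Z q K (k z) w := by
  classical
  rcases Z.eq_empty_or_nonempty with rfl | hZne
  · exact ⟨fun _ => 0, fun z hz => absurd hz (by simp)⟩
  have hZc : IsCompact Z := hZ.isCompact
  obtain ⟨t, htZ, ht⟩ := hZc.elim_nhds_subcover O (fun z hz => (hO z hz).1.mem_nhds (hO z hz).2)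
  obtain ⟨lam, hlam, hL⟩ := lebesgue_number_lemma_of_metric (ι := {z // z ∈ t}) (c := fun z => O z.1)
    hZc (fun z => (hO z.1 (htZ z.1 z.2)).1) (by
      intro z hz
      have := ht hz
      simp only [Set.mem_iUnion] at this ⊢
      obtain ⟨a, ha, hz'⟩ := this
      exact ⟨⟨a, ha⟩, hz'⟩)
  -- neighbourhoods on which all differences are constant
  have hN : ∀ w : {w // w ∈ Z}, ∃ N : Set Y, IsOpen N ∧ w.1 ∈ N ∧ N ⊆ Metric.ball w.1 (lam / 2) ∧
      ∀ z1 ∈ t, ∀ z2 ∈ t, w.1 ∈ O z1 → w.1 ∈ O z2 →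
        ∃ c : G, ∀ w' ∈ N ∩ Z, ∀ x, q x = w' → k z1 x - k z2 x = c := by
    intro w
    have hev : ∀ᶠ w' in 𝓝[Z] w.1, ∀ z1 ∈ t, ∀ z2 ∈ t, ∀ (h1 : w.1 ∈ O z1) (h2 : w.1 ∈ O z2),
        ∀ (hz1 : z1 ∈ Z) (hz2 : z2 ∈ Z), ∀ x, q x = w' →
          k z1 x - k z2 x = (h z1 hz1 z2 hz2 w.1 w.2 h1 h2).choose := by
      rw [Filter.eventually_all_finset]
      intro z1 hz1
      rw [Filter.eventually_all_finset]
      intro z2 hz2
      by_cases h1 : w.1 ∈ O z1
      · by_cases h2 : w.1 ∈ O z2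
        · filter_upwards [(h z1 (htZ z1 hz1) z2 (htZ z2 hz2) w.1 w.2 h1 h2).choose_spec] with w' hw'
          intro _ _ _ _ x hx
          exact hw' x hx
        · exact Filter.Eventually.of_forall (fun w' _ h2' => absurd h2' h2)
      · exact Filter.Eventually.of_forall (fun w' h1' => absurd h1' h1)
    rw [eventually_nhdsWithin_iff] at hev
    obtain ⟨N, hNsub, hNo, hwN⟩ := eventually_nhds_iff.mp hev
    refine ⟨N ∩ Metric.ball w.1 (lam / 2), hNo.inter Metric.isOpen_ball,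
      ⟨hwN, Metric.mem_ball_self (by positivity)⟩, Set.inter_subset_right, ?_⟩
    intro z1 hz1 z2 hz2 h1 h2
    refine ⟨(h z1 (htZ z1 hz1) z2 (htZ z2 hz2) w.1 w.2 h1 h2).choose, ?_⟩
    rintro w' ⟨⟨hw1, _⟩, hw2⟩ x hx
    exact hNsub w' hw1 hw2 z1 hz1 z2 hz2 h1 h2 (htZ z1 hz1) (htZ z2 hz2) x hx
  choose N hNo hwN hNb hNc using hN
  obtain ⟨del, hdel, hD⟩ := lebesgue_number_lemma_of_metric (ι := {w // w ∈ Z}) (c := N)
    hZc hNo (by
      intro z hz
      exact Set.mem_iUnion.mpr ⟨⟨z, hz⟩, hwN ⟨z, hz⟩⟩)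
  obtain ⟨n, V, hVo, hVd, hVc, hVa⟩ := hF (min (del) (lam)) (lt_min hdel hlam)
  have hbd : ∀ s : Set Y, Bornology.IsBounded s := fun s => Metric.isBounded_of_compactSpace
  have hdist : ∀ i, ∀ a ∈ V i, ∀ b ∈ V i, dist a b < min del lam := fun i a ha b hb =>
    lt_of_le_of_lt (Metric.dist_le_diam_of_mem (hbd _) ha hb) (hVd i)
  -- choice of index
  have hZ0 := hZne
  obtain ⟨z0, hz0⟩ := hZne
  obtain ⟨a0, ha0⟩ := hL z0 hz0
  have hch : ∀ i : Fin n, ∃ a : Y, a ∈ t ∧ ∀ z ∈ V i ∩ Z, ∃ z' ∈ V i ∩ Z, Metric.ball z' lam ⊆ O a := by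
    intro i
    by_cases hi : (V i ∩ Z).Nonempty
    · obtain ⟨z, hz⟩ := hi
      obtain ⟨a, ha⟩ := hL z hz.2
      exact ⟨a.1, a.2, fun _ _ => ⟨z, hz, ha⟩⟩
    · exact ⟨a0.1, a0.2, fun z hz => absurd ⟨z, hz⟩ hi⟩
  choose a hat ha using hch
  have hVO : ∀ i, V i ∩ Z ⊆ O (a i) := by
    intro i z hz
    obtain ⟨z', hz', hb⟩ := ha i z hz
    exact hb (Metric.mem_ball.mpr (lt_of_lt_of_le (hdist i z hz.1 z' hz'.1) (min_le_right _ _)))
  have hpair : ∀ i j, ∃ c : G, ∀ w' ∈ V i ∩ V j ∩ Z, ∀ x, q x = w' → k (a i) x - k (a j) x = c := by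
    intro i j
    by_cases hij : (V i ∩ V j ∩ Z).Nonempty
    · obtain ⟨u, ⟨hui, huj⟩, huZ⟩ := hij
      obtain ⟨w, hw⟩ := hD u huZ
      have hVi : V i ⊆ N w := fun v hv => hw (Metric.mem_ball.mpr
        (lt_of_lt_of_le (hdist i v hv u hui) (min_le_left _ _)))
      have hVj : V j ⊆ N w := fun v hv => hw (Metric.mem_ball.mpr
        (lt_of_lt_of_le (hdist j v hv u huj) (min_le_left _ _)))
      have hwi : w.1 ∈ O (a i) := by
        obtain ⟨z', hz', hb⟩ := ha i u ⟨hui, huZ⟩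
        have := hNb w (hVi hz'.1)
        rw [Metric.mem_ball] at this
        exact hb (Metric.mem_ball.mpr (by rw [dist_comm]; linarith))
      have hwj : w.1 ∈ O (a j) := by
        obtain ⟨z', hz', hb⟩ := ha j u ⟨huj, huZ⟩
        have := hNb w (hVj hz'.1)
        rw [Metric.mem_ball] at this
        exact hb (Metric.mem_ball.mpr (by rw [dist_comm]; linarith))
      obtain ⟨c, hc⟩ := hNc w (a i) (hat i) (a j) (hat j) hwi hwj
      exact ⟨c, fun w' hw' x hx => hc w' ⟨hVi hw'.1.1, hw'.2⟩ x hx⟩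
    · exact ⟨0, fun w' hw' => absurd ⟨w', hw'⟩ hij⟩
  choose c hc using hpair
  -- antisymmetric edge function
  obtain ⟨m, hm⟩ := forest_potential _ hVa (fun i j => if i < j then c i j else - c j i) (by
    intro i j hij
    have hne : i ≠ j := hij.ne
    rcases lt_or_gt_of_ne hne with h1 | h1
    · simp [h1, not_lt.mpr h1.le]
    · simp [h1, not_lt.mpr h1.le])
  have hm' : ∀ i j, ∀ w' ∈ V i ∩ V j ∩ Z, ∀ x, q x = w' → k (a i) x - m i = k (a j) x - m j := by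
    intro i j w' hw' x hx
    by_cases hij : i = j
    · subst hij; rfl
    · have hadj : (SimpleGraph.fromRel (fun i j : Fin n => (V i ∩ V j).Nonempty)).Adj i j := by
        rw [SimpleGraph.fromRel_adj]
        exact ⟨hij, Or.inl ⟨w', hw'.1⟩⟩
      have h1 := hm i j hadj
      have h2 : k (a i) x - k (a j) x = m i - m j := by
        rw [h1]
        by_cases hlt : i < j
        · simp only [hlt, if_true]
          exact hc i j w' hw' x hx
        · simp only [hlt, if_false]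
          rw [← hc j i w' ⟨⟨hw'.1.2, hw'.1.1⟩, hw'.2⟩ x hx]; abel
      have h3 : k (a i) x = k (a j) x + (m i - m j) := by rw [← h2]; abel
      rw [h3]; abel
  have hcov : ∀ z : Y, ∃ i, z ∈ V i := by
    intro z
    have : z ∈ ⋃ i, V i := by rw [hVc]; trivial
    simpa using this
  choose ix hix using hcov
  refine ⟨fun x => k (a (ix (q x))) x - m (ix (q x)), fun z hz w hw hwz => ?_⟩
  have hstep : LocEq Z q (fun x => k (a (ix (q x))) x - m (ix (q x))) (k (a (ix w))) w := by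
    refine ⟨- m (ix w), ?_⟩
    have hnb : ∀ᶠ w' in 𝓝[Z] w, w' ∈ V (ix w) ∩ Z := by
      filter_upwards [mem_nhdsWithin_of_mem_nhds ((hVo (ix w)).mem_nhds (hix w)), self_mem_nhdsWithin]
        with w' h1 h2 using ⟨h1, h2⟩
    filter_upwards [hnb] with w' hw' x hx
    have := hm' (ix (q x)) (ix w) w' ⟨⟨by rw [← hx]; exact hix _, hw'.1⟩, hw'.2⟩ x hx
    simp only [this]; abel
  exact hstep.trans (h (a (ix w)) (htZ _ (hat _)) z hz w hw (hVO (ix w) ⟨hix w, hw⟩) hwz)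

end Pool.Agent.B595.NW
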