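import Mathlib
import Pool.Agent.B595.NW.Glue

set_option autoImplicit false

namespace Pool.Agent.B595.NW

open Topology Filter Set

variable {Y : Type} [MetricSpace Y]

/-- `g` is positive and its graph is closed in `Y × (0,∞)`. -/
def Clo (g : Y → ℝ) : Prop :=
  (∀ y, 0 < g y) ∧ ∀ y, ∀ ε > 0, ∀ᶠ y' in 𝓝 y, g y' < ε ∨ |g y' - g y| < ε

/-- `K` is a good subset of `Z`. -/
def Good (g : Y → ℝ) (Z K : Set Y) : Prop :=
  K ⊆ Z ∧ K.Nonempty ∧ IsClosed K ∧ (∃ r > 0, ∀ y ∈ K, r ≤ g y) ∧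
    ∀ y ∈ K, ∀ ε > 0, ∀ᶠ y' in 𝓝[Z] y, y' ∈ K ∨ g y' < ε

theorem tube {g : Y → ℝ} (hg : Clo g) {Z K : Set Y} (hK : Good g Z K) :
    ∃ r > 0, ∃ U : Set Y, IsOpen U ∧ K ⊆ U ∧ (∀ y ∈ K, 4 * r ≤ g y) ∧
      (∀ y ∈ U, g y < r ∨ 3 * r < g y) ∧ (∀ y ∈ U, y ∈ Z → y ∈ K ∨ g y < r) := by
  obtain ⟨-, -, -, ⟨r0, hr0, hr⟩, hn⟩ := hK
  refine ⟨r0 / 4, by positivity, interior {y | (g y < r0 / 4 ∨ 3 * (r0 / 4) < g y) ∧
    (y ∈ Z → y ∈ K ∨ g y < r0 / 4)}, isOpen_interior, ?_, ?_, ?_, ?_⟩
  · intro y hy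
    rw [mem_interior_iff_mem_nhds]
    have h1 := hg.2 y (r0 / 4) (by positivity)
    have h2 := eventually_nhdsWithin_iff.mp (hn y hy (r0 / 4) (by positivity))
    filter_upwards [h1, h2] with y' a b
    refine ⟨?_, b⟩
    rcases a with a | a
    · exact Or.inl a
    · right
      have := hr y hy
      have := (abs_lt.mp a).1
      linarith
  · intro y hy; linarith [hr y hy]
  · intro y hy; exact (interior_subset hy).1
  · intro y hy; exact (interior_subset hy).2

theorem isOpen_lt {g : Y → ℝ} (hg : Clo g) (r : ℝ) : IsOpen {y | g y < r} := by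
  rw [isOpen_iff_mem_nhds]
  intro y hy
  have hy' : g y < r := hy
  have hpos := hg.1 y
  filter_upwards [hg.2 y (r - g y) (by linarith)] with y' a
  show g y' < r
  rcases a with a | a
  · linarith
  · have := (abs_lt.mp a).2
    linarith

theorem isClosed_ge {g : Y → ℝ} (hg : Clo g) (r : ℝ) : IsClosed {y | r ≤ g y} := by
  have := (isOpen_lt hg r).isClosed_compl
  convert this using 1
  ext y; simp

theorem good_of_chain [CompactSpace Y] {g : Y → ℝ} (hg : Clo g) (C : Set (Set Y))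
    (hC : IsChain (· ⊆ ·) C) (hne : C.Nonempty) (hcl : ∀ Z ∈ C, IsClosed Z) (K : Set Y)
    (hK : Good g (⋂₀ C) K) : ∃ Z ∈ C, ∃ K', Good g Z K' := by
  obtain ⟨r, hr, U, hU, hKU, hKr, hU1, hU2⟩ := tube hg hK
  obtain ⟨U1, hU1o, hKU1, hU1U⟩ := normal_exists_closure_subset hK.2.2.1 hU hKU
  have hG := isClosed_ge hg r
  have hFc : IsCompact ((closure U1 \ U1) ∩ {y | r ≤ g y}) :=
    ((isClosed_closure.sdiff hU1o).inter hG).isCompact
  have hCne : Nonempty C := hne.to_subtype
  obtain ⟨⟨Z, hZ⟩, hZe⟩ := hFc.elim_directed_family_closed (fun Z : C => Z.1)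
    (fun Z => hcl Z.1 Z.2) (by
      rw [Set.eq_empty_iff_forall_notMem]
      rintro y ⟨⟨⟨hy1, hy2⟩, hy3⟩, hy4⟩
      have hyC : y ∈ ⋂₀ C := by
        intro Z hZ
        exact (Set.mem_iInter.mp hy4) ⟨Z, hZ⟩
      rcases hU2 y (hU1U hy1) hyC with h | h
      · exact hy2 (hKU1 h)
      · have : r ≤ g y := hy3
        linarith) (by
      intro A B
      rcases hC.total A.2 B.2 with h | h
      · exact ⟨A, le_refl _, h⟩
      · exact ⟨B, h, le_refl _⟩)
  refine ⟨Z, hZ, closure U1 ∩ {y | r ≤ g y} ∩ Z, Set.inter_subset_right, ?_,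
    (isClosed_closure.inter hG).inter (hcl Z hZ), ⟨r, hr, fun y hy => hy.1.2⟩, ?_⟩
  · obtain ⟨y, hy⟩ := hK.2.1
    exact ⟨y, ⟨subset_closure (hKU1 hy), by
      have := hKr y hy
      show r ≤ g y
      linarith⟩, (Set.sInter_subset_of_mem hZ) (hK.1 hy)⟩
  · rintro y ⟨⟨hy1, hy2⟩, hy3⟩ ε hε
    have hyU1 : y ∈ U1 := by
      by_contra hcon
      have : y ∈ (closure U1 \ U1) ∩ {y | r ≤ g y} ∩ Z := ⟨⟨⟨hy1, hcon⟩, hy2⟩, hy3⟩
      rw [hZe] at this
      exact this
    have hgy : 3 * r < g y := by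
      rcases hU1 y (hU1U hy1) with h | h
      · have : r ≤ g y := hy2
        linarith
      · exact h
    filter_upwards [mem_nhdsWithin_of_mem_nhds (hU1o.mem_nhds hyU1), self_mem_nhdsWithin,
      mem_nhdsWithin_of_mem_nhds (hg.2 y (min ε r) (lt_min hε hr))] with y' a b c
    by_cases hy' : r ≤ g y'
    · exact Or.inl ⟨⟨subset_closure a, hy'⟩, b⟩
    · right
      rcases c with c | c
      · exact lt_of_lt_of_le c (min_le_left _ _)
      · exfalso
        have h1 := (abs_lt.mp c).1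
        have h2 := min_le_right ε r
        linarith

theorem exists_good [CompactSpace Y] (hF : ForestCov Y) {g : Y → ℝ} (hg : Clo g) (Z : Set Y)
    (hZ : IsClosed Z) (hZne : Z.Nonempty) : ∃ K, Good g Z K := by
  classical
  by_contra hbad
  set B : Set (Set Y) := {Z | IsClosed Z ∧ Z.Nonempty ∧ ∀ K, ¬ Good g Z K} with hB
  have hZB : Z ∈ B := ⟨hZ, hZne, fun K hK => hbad ⟨K, hK⟩⟩
  obtain ⟨M, -, hM⟩ := zorn_superset_nonempty B (by
    intro C hCB hC hCne
    refine ⟨⋂₀ C, ⟨isClosed_sInter fun Z hZ => (hCB hZ).1, ?_, ?_⟩, fun s hs => Set.sInter_subset_of_mem hs⟩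
    · have hCne' : Nonempty C := hCne.to_subtype
      have := IsCompact.nonempty_sInter_of_directed_nonempty_isCompact_isClosed (S := C)
        (by
          intro A hA B hB
          rcases hC.total hA hB with h | h
          · exact ⟨A, hA, le_refl _, h⟩
          · exact ⟨B, hB, h, le_refl _⟩)
        (fun A hA => (hCB hA).2.1) (fun A hA => (hCB hA).1.isCompact) (fun A hA => (hCB hA).1)
      exact this
    · intro K hK
      obtain ⟨Z, hZC, K', hK'⟩ := good_of_chain hg C hC hCne (fun Z hZ => (hCB hZ).1) K hK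
      exact (hCB hZC).2.2 K' hK') Z hZB
  clear hZB hbad hZne hZ Z
  obtain ⟨⟨hMc, hMne, hMb⟩, hmin⟩ := hM
  have hprop : ∀ T : Set Y, IsClosed T → T.Nonempty → T ⊆ M → T ≠ M → ∃ K, Good g T K := by
    intro T hT hTne hTM hTne'
    by_contra hcon
    push Not at hcon
    exact hTne' (Set.Subset.antisymm hTM (hmin ⟨hT, hTne, hcon⟩ hTM))
  -- singular part
  set Dn : ℕ → Set Y := fun n => closure (M ∩ {y | g y < 1 / ((n : ℝ) + 1)}) with hDn
  set D : Set Y := ⋂ n, Dn n with hD
  have hDc : IsClosed D := isClosed_iInter fun n => isClosed_closure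
  have hDM : D ⊆ M := by
    intro y hy
    have := (Set.mem_iInter.mp hy) 0
    exact hMc.closure_subset_iff.mpr Set.inter_subset_left this
  have hDne : D.Nonempty := by
    by_contra hcon
    rw [Set.not_nonempty_iff_eq_empty] at hcon
    have hmono : ∀ m n, m ≤ n → Dn n ⊆ Dn m := by
      intro m n hmn
      apply closure_mono
      rintro y ⟨hy1, hy2⟩
      have hy2' : g y < 1 / ((n : ℝ) + 1) := hy2
      refine ⟨hy1, lt_of_lt_of_le hy2' ?_⟩
      exact one_div_le_one_div_of_le (by positivity) (by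
        have : (m : ℝ) ≤ n := by exact_mod_cast hmn
        linarith)
    obtain ⟨n, hn⟩ := (isCompact_univ (X := Y)).elim_directed_family_closed Dn
      (fun n => isClosed_closure) (by rw [Set.univ_inter]; exact hcon) (by
        intro a b
        rcases le_total a b with h | h
        · exact ⟨b, hmono a b h, le_refl _⟩
        · exact ⟨a, le_refl _, hmono b a h⟩)
    rw [Set.univ_inter] at hn
    refine hMb M ⟨le_refl _, hMne, hMc, ⟨1 / ((n : ℝ) + 1), by positivity, fun y hy => ?_⟩, fun y hy ε hε => ?_⟩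
    · by_contra hlt
      push Not at hlt
      have : y ∈ Dn n := subset_closure ⟨hy, hlt⟩
      rw [hn] at this
      exact this
    · filter_upwards [self_mem_nhdsWithin] with y' hy'
      exact Or.inl hy'
  have hDneM : D ≠ M := by
    intro hDeq
    have hMcomp : CompactSpace M := isCompact_iff_compactSpace.mp hMc.isCompact
    have hMN : Nonempty M := hMne.to_subtype
    obtain ⟨n, hn⟩ := nonempty_interior_of_iUnion_of_closed (X := M)
      (f := fun n : ℕ => {y : M | 1 / ((n : ℝ) + 1) ≤ g y.1})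
      (fun n => (isClosed_ge hg _).preimage continuous_subtype_val) (by
        rw [Set.eq_univ_iff_forall]
        intro y
        obtain ⟨n, hn⟩ := exists_nat_one_div_lt (hg.1 y.1)
        exact Set.mem_iUnion.mpr ⟨n, hn.le⟩)
    obtain ⟨y, hy⟩ := hn
    have hyD : y.1 ∈ D := by rw [hDeq]; exact y.2
    have hyn : y.1 ∈ closure (M ∩ {y | g y < 1 / ((n : ℝ) + 1)}) := (Set.mem_iInter.mp hyD) n
    obtain ⟨O, hO, hOe⟩ := isOpen_induced_iff.mp (isOpen_interior (s := {y : M | 1 / ((n : ℝ) + 1) ≤ g y.1}))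
    have hyO : y.1 ∈ O := by
      have : y ∈ (Subtype.val ⁻¹' O : Set M) := by rw [hOe]; exact hy
      exact this
    obtain ⟨z, hzO, hzM, hzg⟩ := mem_closure_iff.mp hyn O hO hyO
    have : (⟨z, hzM⟩ : M) ∈ interior {y : M | 1 / ((n : ℝ) + 1) ≤ g y.1} := by
      rw [← hOe]; exact hzO
    have := interior_subset this
    have h1 : 1 / ((n : ℝ) + 1) ≤ g z := this
    have h2 : g z < 1 / ((n : ℝ) + 1) := hzg
    linarith
  obtain ⟨S, hS⟩ := hprop D hDc hDne hDM hDneM
  obtain ⟨r, hr, U, hU, hSU, hSr, hU1, hU2⟩ := tube hg hS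
  set W : Set Y := {y | y ∈ U ∧ r ≤ g y} with hW
  have hloc : ∀ w ∈ M, w ∈ U → w ∉ S → ∀ᶠ w' in 𝓝[M] w, (w' ∈ W ↔ w ∈ W) := by
    intro w hwM hwU hwS
    by_cases hgw : r ≤ g w
    · have hwW : w ∈ W := ⟨hwU, hgw⟩
      have hwD : w ∉ D := by
        intro hwD
        rcases hU2 w hwU hwD with h | h
        · exact hwS h
        · linarith
      obtain ⟨n, hn⟩ : ∃ n, w ∉ Dn n := by
        by_contra hcon
        push Not at hcon
        exact hwD (Set.mem_iInter.mpr hcon)
      have h3 : 3 * r < g w := by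
        rcases hU1 w hwU with h | h
        · linarith
        · exact h
      have hnn : (Dn n)ᶜ ∈ 𝓝 w := isClosed_closure.isOpen_compl.mem_nhds hn
      filter_upwards [mem_nhdsWithin_of_mem_nhds hnn, mem_nhdsWithin_of_mem_nhds (hU.mem_nhds hwU),
        self_mem_nhdsWithin, mem_nhdsWithin_of_mem_nhds (hg.2 w (min (1 / ((n : ℝ) + 1)) r)
          (lt_min (by positivity) hr))] with w' a b c d
      refine ⟨fun _ => hwW, fun _ => ⟨b, ?_⟩⟩
      rcases d with d | d
      · exfalso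
        exact a (subset_closure ⟨c, lt_of_lt_of_le d (min_le_left _ _)⟩)
      · have h1 := (abs_lt.mp d).1
        have h2 := min_le_right (1 / ((n : ℝ) + 1)) r
        linarith
    · have hwW : w ∉ W := fun h => hgw h.2
      have : {y | g y < r} ∈ 𝓝 w := (isOpen_lt hg r).mem_nhds (by push Not at hgw; exact hgw)
      filter_upwards [mem_nhdsWithin_of_mem_nhds this] with w' a
      exact ⟨fun h => absurd h.2 (not_le.mpr a), fun h => absurd h hwW⟩
  -- potential
  obtain ⟨κ, hκ⟩ := glue (P := Y) (G := ℤ) hF M hMc id (fun z => if z ∈ S then U else Sᶜ)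
    (by
      intro z hz
      by_cases hzS : z ∈ S
      · simp only [hzS, if_true]
        exact ⟨hU, hSU hzS⟩
      · simp only [hzS, if_false]
        exact ⟨hS.2.2.1.isOpen_compl, hzS⟩)
    (fun z y => if z ∈ S then (if y ∈ W then 1 else 0) else 0)
    (by
      intro z1 hz1 z2 hz2 w hw hw1 hw2
      by_cases h1 : z1 ∈ S <;> by_cases h2 : z2 ∈ S <;> simp only [h1, h2, if_true, if_false] at hw1 hw2 ⊢
      · exact ⟨0, Filter.Eventually.of_forall fun w' x _ => by simp⟩
      · refine ⟨if w ∈ W then 1 else 0, ?_⟩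
        filter_upwards [hloc w hw hw1 hw2] with w' a x hx
        have hx' : x = w' := hx
        subst hx'
        simp [a]
      · refine ⟨-(if w ∈ W then 1 else 0), ?_⟩
        filter_upwards [hloc w hw hw2 hw1] with w' a x hx
        have hx' : x = w' := hx
        subst hx'
        simp [a]
      · exact ⟨0, Filter.Eventually.of_forall fun w' x _ => by simp⟩)
  have hκS : ∀ w ∈ M, w ∉ S → ∀ᶠ w' in 𝓝[M] w, κ w' = κ w := by
    intro w hw hwS
    obtain ⟨c, hc⟩ := hκ w hw w hw (by simp only [hwS, if_false]; exact hwS)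
    have hself := hc.self_of_nhdsWithin hw w rfl
    filter_upwards [hc] with w' a
    have := a w' rfl
    simp only [hwS, if_false] at this hself
    linarith
  have hκS' : ∀ w ∈ S, ∀ᶠ w' in 𝓝[M] w, κ w' = κ w - 1 + (if w' ∈ W then 1 else 0) := by
    intro w hwS
    have hw : w ∈ M := hDM (hS.1 hwS)
    obtain ⟨c, hc⟩ := hκ w hw w hw (by simp only [hwS, if_true]; exact hSU hwS)
    have hself := hc.self_of_nhdsWithin hw w rfl
    have hwW : w ∈ W := ⟨hSU hwS, by linarith [hSr w hwS]⟩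
    filter_upwards [hc] with w' a
    have := a w' rfl
    simp only [hwS, if_true, hwW] at this hself
    linarith
  have hle : ∀ w ∈ M, ∀ᶠ w' in 𝓝[M] w, κ w' ≤ κ w := by
    intro w hw
    by_cases hwS : w ∈ S
    · filter_upwards [hκS' w hwS] with w' a
      rw [a]; split_ifs <;> linarith
    · filter_upwards [hκS w hw hwS] with w' a
      rw [a]
  obtain ⟨y0, hy0M, hy0⟩ : ∃ y0 ∈ M, ∀ y ∈ M, κ y ≤ κ y0 := by
    obtain ⟨t, htM, ht⟩ := hMc.isCompact.elim_nhdsWithin_subcover (fun w => {w' | κ w' ≤ κ w})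
      (fun w hw => hle w hw)
    have htne : t.Nonempty := by
      obtain ⟨y, hy⟩ := hMne
      have := ht hy
      simp only [Set.mem_iUnion] at this
      obtain ⟨a, ha, _⟩ := this
      exact ⟨a, ha⟩
    obtain ⟨a, ha, hmax⟩ := t.exists_max_image κ htne
    refine ⟨a, htM a ha, fun y hy => ?_⟩
    have := ht hy
    simp only [Set.mem_iUnion] at this
    obtain ⟨b, hb, hyb⟩ := this
    exact le_trans hyb (hmax b hb)
  set K : Set Y := {y | y ∈ M ∧ κ y = κ y0} with hK
  have hKc : IsClosed K := by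
    rw [← isOpen_compl_iff, isOpen_iff_mem_nhds]
    intro w hw
    by_cases hwM : w ∈ M
    · have hlt : κ w < κ y0 := lt_of_le_of_ne (hy0 w hwM) (fun h => hw ⟨hwM, h⟩)
      filter_upwards [eventually_nhdsWithin_iff.mp (hle w hwM)] with w' a hw'
      have := a hw'.1
      have := hw'.2
      omega
    · filter_upwards [hMc.isOpen_compl.mem_nhds hwM] with w' a hw'
      exact a hw'.1
  have hKne : K.Nonempty := ⟨y0, hy0M, rfl⟩
  have hKM : K ⊆ M := fun y hy => hy.1
  have hKneM : K ≠ M := by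
    intro hKeq
    obtain ⟨s, hs⟩ := hS.2.1
    have hsM : s ∈ M := hDM (hS.1 hs)
    obtain ⟨n, hn⟩ := exists_nat_one_div_lt hr
    have hsn : s ∈ closure (M ∩ {y | g y < 1 / ((n : ℝ) + 1)}) := (Set.mem_iInter.mp (hS.1 hs)) n
    obtain ⟨O, hOs, hO, hsO⟩ := eventually_nhds_iff.mp (eventually_nhdsWithin_iff.mp (hκS' s hs))
    obtain ⟨z, hzO, hzM, hzg⟩ := mem_closure_iff.mp hsn O hO hsO
    have h1 := hOs z hzO hzM
    have hzW : z ∉ W := fun h => by
      have h2 := h.2
      have h3 : g z < 1 / ((n : ℝ) + 1) := hzg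
      linarith
    simp only [hzW, if_false] at h1
    have hzK : z ∈ K := by rw [hKeq]; exact hzM
    have h4 := hzK.2
    have h5 := hy0 s hsM
    omega
  obtain ⟨C, hC⟩ := hprop K hKc hKne hKM hKneM
  obtain ⟨hCK, hCne, hCc, ⟨r2, hr2, hCr⟩, hCn⟩ := hC
  refine hMb C ⟨hCK.trans hKM, hCne, hCc, ⟨r2, hr2, hCr⟩, fun y hy ε hε => ?_⟩
  have hyK := hCK hy
  have h1 := eventually_nhdsWithin_iff.mp (hCn y hy ε hε)
  by_cases hyS : y ∈ S
  · filter_upwards [mem_nhdsWithin_of_mem_nhds h1, hκS' y hyS, self_mem_nhdsWithin,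
      mem_nhdsWithin_of_mem_nhds (hU.mem_nhds (hSU hyS)),
      mem_nhdsWithin_of_mem_nhds (hg.2 y (min ε r) (lt_min hε hr))] with y' a b c d e
    by_cases hy'K : y' ∈ K
    · exact a hy'K
    · right
      have hy'W : y' ∉ W := by
        intro hW'
        simp only [hW', if_true] at b
        exact hy'K ⟨c, by rw [b]; have := hyK.2; omega⟩
      have hlt : g y' < r := by
        by_contra hcon
        push Not at hcon
        exact hy'W ⟨d, hcon⟩
      rcases e with e | e
      · exact lt_of_lt_of_le e (min_le_left _ _)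
      · exfalso
        have h2 := (abs_lt.mp e).1
        have h3 := min_le_right ε r
        have h4 := hSr y hyS
        linarith
  · filter_upwards [mem_nhdsWithin_of_mem_nhds h1, hκS y (hKM hyK) hyS, self_mem_nhdsWithin] with y' a b c
    exact a ⟨c, by rw [b]; exact hyK.2⟩

end Pool.Agent.B595.NW
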