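import Mathlib
import Pool.Agent.B595.NW.Core

set_option autoImplicit false

namespace Pool.Agent.B595.NW

open Topology Filter Set

/-- For a closed map, a neighbourhood of a fibre contains the nearby fibres. -/
theorem near_fibre {X Y : Type} [TopologicalSpace X] [TopologicalSpace Y] {f : X → Y}
    (hf : IsClosedMap f) (y : Y) (s : Set X) (hs : ∀ x, f x = y → s ∈ 𝓝 x) :
    ∀ᶠ y' in 𝓝 y, ∀ x, f x = y' → x ∈ s := by
  have h1 : IsClosed (f '' (interior s)ᶜ) := hf _ isOpen_interior.isClosed_compl
  have h2 : y ∉ f '' (interior s)ᶜ := by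
    rintro ⟨x, hx, hxy⟩
    exact hx (mem_interior_iff_mem_nhds.mpr (hs x hxy))
  filter_upwards [h1.isOpen_compl.mem_nhds h2] with y' hy' x hx
  by_contra hcon
  exact hy' ⟨x, fun h => hcon (interior_subset h), hx⟩

theorem nadler_ward (X Y : Type) [MetricSpace X] [CompactSpace X] [ConnectedSpace X]
    [MetricSpace Y] [CompactSpace Y] [Nonempty Y] (hF : ForestCov Y) :
    ¬ ∃ f : X → Y, Continuous f ∧ ∀ y : Y, (f ⁻¹' {y}).ncard = 2 := by
  classical
  rintro ⟨f, hf, hcard⟩
  have hcl : IsClosedMap f := hf.isClosedMap
  have hpq : ∀ y, ∃ p q : X, p ≠ q ∧ f ⁻¹' {y} = {p, q} := by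
    intro y
    obtain ⟨p, q, h1, h2⟩ := Set.ncard_eq_two.mp (hcard y)
    exact ⟨p, q, h1, h2⟩
  choose p q hne hfib using hpq
  have hfp : ∀ y, f (p y) = y := fun y => by
    have : p y ∈ f ⁻¹' {y} := by rw [hfib]; simp
    exact this
  have hfq : ∀ y, f (q y) = y := fun y => by
    have : q y ∈ f ⁻¹' {y} := by rw [hfib]; simp
    exact this
  have hor : ∀ y x, f x = y → x = p y ∨ x = q y := fun y x hx => by
    have : x ∈ f ⁻¹' {y} := hx
    rw [hfib] at this
    simpa using this
  set g : Y → ℝ := fun y => dist (p y) (q y) with hgdef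
  have hnear : ∀ y, ∀ δ > 0, ∀ᶠ y' in 𝓝 y, ∀ x, f x = y' → x ∈ Metric.ball (p y) δ ∪ Metric.ball (q y) δ := by
    intro y δ hδ
    apply near_fibre hcl
    intro x hx
    rcases hor y x hx with rfl | rfl
    · exact Filter.mem_of_superset (Metric.ball_mem_nhds _ hδ) Set.subset_union_left
    · exact Filter.mem_of_superset (Metric.ball_mem_nhds _ hδ) Set.subset_union_right
  have hg : Clo g := by
    refine ⟨fun y => dist_pos.mpr (hne y), fun y ε hε => ?_⟩
    filter_upwards [hnear y (ε / 2) (by positivity)] with y' h
    have h1 := h (p y') (hfp y')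
    have h2 := h (q y') (hfq y')
    simp only [hgdef]
    rcases h1 with h1 | h1 <;> rcases h2 with h2 | h2 <;> rw [Metric.mem_ball] at h1 h2
    · left
      have := dist_triangle_right (p y') (q y') (p y)
      linarith
    · right
      have := dist_dist_dist_le (p y') (q y') (p y) (q y)
      rw [Real.dist_eq] at this
      linarith
    · right
      have := dist_dist_dist_le (p y') (q y') (q y) (p y)
      rw [Real.dist_eq, dist_comm (q y) (p y)] at this
      linarith
    · left
      have := dist_triangle_right (p y') (q y') (q y)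
      linarith
  obtain ⟨K, -, hKne, hKc, ⟨r, hr, hKr⟩, hKn⟩ := exists_good hF hg Set.univ isClosed_univ Set.univ_nonempty
  -- neighbourhoods of the points of `K`
  have hV : ∀ z : Y, ∃ V : Set Y, IsOpen V ∧ z ∈ V ∧ (z ∈ K → ∀ w ∈ V,
      (∀ x, f x = w → x ∈ Metric.ball (p z) (r / 4) ∪ Metric.ball (q z) (r / 4)) ∧
      (w ∈ K ∨ g w < r / 4)) := by
    intro z
    by_cases hz : z ∈ K
    · have h1 := hnear z (r / 4) (by positivity)
      have h2 := hKn z hz (r / 4) (by positivity)
      rw [nhdsWithin_univ] at h2
      obtain ⟨V, hV, hVo, hzV⟩ := eventually_nhds_iff.mp (h1.and h2)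
      exact ⟨V, hVo, hzV, fun _ w hw => hV w hw⟩
    · exact ⟨Set.univ, isOpen_univ, trivial, fun h => absurd h hz⟩
  choose V hVo hzV hV using hV
  have hdisj : ∀ z ∈ K, ∀ x, x ∈ Metric.ball (p z) (r / 4) → x ∈ Metric.ball (q z) (r / 4) → False := by
    intro z hz x h1 h2
    rw [Metric.mem_ball] at h1 h2
    have h3 := dist_triangle_left (p z) (q z) x
    have h4 : r ≤ dist (p z) (q z) := hKr z hz
    linarith
  set k : Y → X → ZMod 2 := fun z x => if z ∈ K then (if x ∈ Metric.ball (p z) (r / 4) then 1 else 0) else 0
    with hk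
  set O : Y → Set Y := fun z => if z ∈ K then V z else Kᶜ with hO
  have hA : ∀ z w x, w ∈ O z → f x = w → ∀ᶠ x' in 𝓝 x, k z x' = k z x := by
    intro z w x hw hx
    by_cases hz : z ∈ K
    · simp only [hO, hz, if_true] at hw
      simp only [hk, hz, if_true]
      rcases (hV z hz w hw).1 x hx with h | h
      · filter_upwards [Metric.isOpen_ball.mem_nhds h] with x' hx'
        simp [h, hx']
      · have h' : x ∉ Metric.ball (p z) (r / 4) := fun h1 => hdisj z hz x h1 h
        filter_upwards [Metric.isOpen_ball.mem_nhds h] with x' hx'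
        have h'' : x' ∉ Metric.ball (p z) (r / 4) := fun h1 => hdisj z hz x' h1 hx'
        simp only [h', h'', if_false]
    · exact Filter.Eventually.of_forall fun x' => by simp only [hk, hz, if_false]
  have hB : ∀ z w, w ∈ O z → k z (p w) - k z (q w) = if w ∈ K then 1 else 0 := by
    intro z w hw
    by_cases hz : z ∈ K
    · simp only [hO, hz, if_true] at hw
      simp only [hk, hz, if_true]
      obtain ⟨h1, h2⟩ := hV z hz w hw
      have hzr : r ≤ dist (p z) (q z) := hKr z hz
      by_cases hwK : w ∈ K
      · simp only [hwK, if_true]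
        have hwr : r ≤ dist (p w) (q w) := hKr w hwK
        rcases h1 (p w) (hfp w) with a | a <;> rcases h1 (q w) (hfq w) with b | b
        · exfalso
          rw [Metric.mem_ball] at a b
          have := dist_triangle_right (p w) (q w) (p z)
          linarith
        · have b' : q w ∉ Metric.ball (p z) (r / 4) := fun h => hdisj z hz _ h b
          simp only [a, b', if_true, if_false]; decide
        · have a' : p w ∉ Metric.ball (p z) (r / 4) := fun h => hdisj z hz _ h a
          simp only [a', b, if_true, if_false]; decide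
        · exfalso
          rw [Metric.mem_ball] at a b
          have := dist_triangle_right (p w) (q w) (q z)
          linarith
      · simp only [hwK, if_false]
        have hwr : dist (p w) (q w) < r / 4 := h2.resolve_left hwK
        rcases h1 (p w) (hfp w) with a | a <;> rcases h1 (q w) (hfq w) with b | b
        · simp only [a, b, if_true]; decide
        · exfalso
          rw [Metric.mem_ball] at a b
          have h3 := dist_triangle_left (p z) (q w) (p w)
          have h4 := dist_triangle_right (p z) (q z) (q w)
          rw [dist_comm (q z) (q w)] at h4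
          linarith
        · exfalso
          rw [Metric.mem_ball] at a b
          have h3 := dist_triangle_left (q z) (q w) (p w)
          have h4 := dist_triangle_right (q z) (p z) (q w)
          rw [dist_comm (p z) (q w), dist_comm (q z) (p z)] at h4
          linarith
        · have a' : p w ∉ Metric.ball (p z) (r / 4) := fun h => hdisj z hz _ h a
          have b' : q w ∉ Metric.ball (p z) (r / 4) := fun h => hdisj z hz _ h b
          simp only [a', b', if_false]; decide
    · simp only [hO, hz, if_false] at hw
      have hwK : w ∉ K := hw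
      simp only [hk, hz, hwK, if_false]; decide
  obtain ⟨κ, hκ⟩ := glue (P := X) (G := ZMod 2) hF Set.univ isClosed_univ f O
    (by
      intro z _
      by_cases hz : z ∈ K
      · simp only [hO, hz, if_true]; exact ⟨hVo z, hzV z⟩
      · simp only [hO, hz, if_false]; exact ⟨hKc.isOpen_compl, hz⟩)
    k
    (by
      intro z1 _ z2 _ w _ h1 h2
      rw [LocEq, nhdsWithin_univ]
      refine ⟨k z1 (p w) - k z2 (p w), near_fibre hcl w {x | k z1 x - k z2 x = k z1 (p w) - k z2 (p w)} ?_⟩
      intro x hx
      have hx' : k z1 x - k z2 x = k z1 (p w) - k z2 (p w) := by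
        rcases hor w x hx with rfl | rfl
        · rfl
        · have e1 := hB z1 w h1
          have e2 := hB z2 w h2
          have e3 : k z1 (p w) - k z1 (q w) = k z2 (p w) - k z2 (q w) := by rw [e1, e2]
          have e4 : k z1 (p w) = k z2 (p w) - k z2 (q w) + k z1 (q w) := by rw [← e3]; abel
          rw [e4]; abel
      filter_upwards [hA z1 w x h1 hx, hA z2 w x h2 hx] with x' a b
      show k z1 x' - k z2 x' = _
      rw [a, b, hx'])
  have hOself : ∀ w, w ∈ O w := by
    intro w
    by_cases hw : w ∈ K
    · simp only [hO, hw, if_true]; exact hzV w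
    · simp only [hO, hw, if_false]; exact hw
  have hlc : IsLocallyConstant κ := by
    rw [IsLocallyConstant.iff_eventually_eq]
    intro x
    obtain ⟨c, hc⟩ := hκ (f x) trivial (f x) trivial (hOself (f x))
    rw [nhdsWithin_univ] at hc
    have hself := hc.self_of_nhds x rfl
    filter_upwards [hf.continuousAt.eventually hc, hA (f x) (f x) x (hOself _) rfl] with x' a b
    have a' := a x' rfl
    have e1 : κ x' = c + k (f x) x' := by rw [← a']; abel
    have e2 : κ x = c + k (f x) x := by rw [← hself]; abel
    rw [e1, e2, b]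
  obtain ⟨w, hw⟩ := hKne
  obtain ⟨c, hc⟩ := hκ w trivial w trivial (hOself w)
  rw [nhdsWithin_univ] at hc
  have e1 := hc.self_of_nhds (p w) (hfp w)
  have e2 := hc.self_of_nhds (q w) (hfq w)
  have e3 : κ (p w) = κ (q w) := hlc.apply_eq_of_preconnectedSpace _ _
  have e4 := hB w w (hOself w)
  simp only [hw, if_true] at e4
  have e5 : k w (p w) = k w (q w) := by
    have : k w (p w) = κ (p w) - c := by rw [← e1]; abel
    have h' : k w (q w) = κ (q w) - c := by rw [← e2]; abel
    rw [this, h', e3]
  rw [e5, sub_self] at e4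
  exact absurd e4 (by decide)

end Pool.Agent.B595.NW
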